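import Pool.Agent.Y363.FC.SL

set_option autoImplicit false

/-!
Job Y248-FC CY of helper248: cylinder measures.
-/

namespace Pool.Agent.Y79.FC

open MeasureTheory Set Metric Filter
open scoped ENNReal
open Pool.Agent.H789R2.FR (E)
open Pool.Agent.Y248.FC
open Pool.Agent.Y363.FC

variable {m k : ℕ}

theorem pr_es (z : E m × E k) : pr m (es m k z) = z.2 := by
  rw [es_fun]
  show (ee m k ((ee m k).symm z)).2 = z.2
  rw [ContinuousLinearEquiv.apply_symm_apply]

theorem es_ball (a : E m) (t : E k) (r : ℝ) :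
    es m k ⁻¹' closedBall (es m k (a, t)) r ⊆ closedBall a r ×ˢ closedBall t r := by
  rintro ⟨a', t'⟩ h
  rw [mem_preimage, mem_closedBall, dist_eq_norm] at h
  have h1 : es m k (a', t') - es m k (a, t) = es m k (a' - a, t' - t) := by
    rw [es_fun, ← map_sub]
    rfl
  rw [h1] at h
  refine ⟨?_, ?_⟩
  · rw [mem_closedBall, dist_eq_norm]
    exact (es_le1 _ _).trans h
  · rw [mem_closedBall, dist_eq_norm]
    exact (es_le2 _ _).trans h

theorem t_cy (m k : ℕ) : S_CY m k := by
  refine ⟨?_, ?_⟩
  · set V : ℝ≥0∞ := (volume : Measure (E m)) (ball 0 1) with hV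
    have hVt : V ≠ ∞ := measure_ball_lt_top.ne
    refine ⟨V.toReal + 1, by positivity, ?_⟩
    intro β K₀ hβ _ hK ν hν x r hr
    have hr0 : 0 ≤ r := by linarith
    have : IsLocallyFiniteMeasure ν := ⟨fun t => ⟨closedBall t 1,
      closedBall_mem_nhds t one_pos, (hν t 1 le_rfl).trans_lt ENNReal.ofReal_lt_top⟩⟩
    obtain ⟨a, t, rfl⟩ : ∃ (a : E m) (t : E k), x = es m k (a, t) := by
      refine ⟨(ee m k x).1, (ee m k x).2, ?_⟩
      rw [es_fun]
      exact ((ee m k).symm_apply_apply x).symm
    rw [cyl_eq, Measure.map_apply es_cont.measurable isClosed_closedBall.measurableSet]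
    have h1 : ((volume : Measure (E m)).prod ν) (closedBall a r ×ˢ closedBall t r) =
        (ENNReal.ofReal (r ^ m) * V) * ν (closedBall t r) := by
      rw [Measure.prod_prod, Measure.addHaar_closedBall _ _ hr0, finrank_euclideanSpace_fin]
    calc ((volume : Measure (E m)).prod ν) (es m k ⁻¹' closedBall (es m k (a, t)) r)
        ≤ ((volume : Measure (E m)).prod ν) (closedBall a r ×ˢ closedBall t r) :=
          measure_mono (es_ball a t r)
      _ = (ENNReal.ofReal (r ^ m) * V) * ν (closedBall t r) := h1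
      _ ≤ (ENNReal.ofReal (r ^ m) * V) * ENNReal.ofReal (K₀ * r ^ β) := by
          gcongr
          exact hν t r hr
      _ = ENNReal.ofReal (r ^ m * V.toReal * (K₀ * r ^ β)) := by
          have h3 : (0 : ℝ) ≤ r ^ m * V.toReal := by positivity
          have h4 : (0 : ℝ) ≤ r ^ m := by positivity
          rw [ENNReal.ofReal_mul h3, ENNReal.ofReal_mul h4, ENNReal.ofReal_toReal hVt]
      _ ≤ ENNReal.ofReal ((V.toReal + 1) * K₀ * r ^ ((m : ℝ) + β)) := by
          apply ENNReal.ofReal_le_ofReal
          rw [Real.rpow_add (by linarith), Real.rpow_natCast]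
          have h2 : 0 ≤ K₀ * (r ^ m * r ^ β) := by positivity
          nlinarith
  · intro F _
    have h1 : es m k ⁻¹' {x | pr m x ∈ F} = univ ×ˢ F := by
      ext z
      rw [mem_preimage, mem_ofPred_eq, pr_es, mem_prod]
      simp
    have h2 := ((es_mp (m := m) (k := k)).restrict_preimage_emb es_me {x | pr m x ∈ F}).map_eq
    rw [← h2, h1, cyl_eq, Measure.volume_eq_prod, ← Measure.prod_restrict, Measure.restrict_univ]

end Pool.Agent.Y79.FC
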